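import Pool.Agent.H67.Pl.Basic

open MeasureTheory
open scoped ComplexConjugate

namespace Pool.Agent.H67.Pl

namespace RepAux

/-- The measure of the parameters. -/
noncomputable abbrev muP (η : ℝ) : Measure (ℝ × ℝ) :=
  (volume.restrict (Set.Ioc 0 η)).prod (volume.restrict (Set.Ioc 0 (2 * Real.pi)))

/-- The vector of the parameters. -/
noncomputable def vv (z : ℝ × ℝ) : ℂ := ((1 + z.1 : ℝ) : ℂ) * cu z.2

/-- The product of the outer functions. -/
noncomputable def Hh (a₁ a₂ : ℂ) (f₀ f₂ : ℂ → ℂ) (z : ℝ × ℝ) (y : ℂ) : ℂ :=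
  f₀ (y - a₁ * vv z) * f₂ (y + (a₂ - a₁) * vv z)

/-- The dual function at the vertex `1`. -/
noncomputable def D1 (a₁ a₂ : ℂ) (η : ℝ) (f₀ f₂ : ℂ → ℂ) (y : ℂ) : ℂ :=
  ∫ z, (qk η z.1 : ℂ) * Hh a₁ a₂ f₀ f₂ z y ∂(muP η)

lemma continuous_cu : Continuous cu := by
  unfold cu
  fun_prop

lemma norm_cu (φ : ℝ) : ‖cu φ‖ = 1 := by
  unfold cu
  exact Complex.norm_exp_ofReal_mul_I φ

lemma continuous_vv : Continuous vv := by
  unfold vv
  have := continuous_cu
  fun_prop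

lemma measurable_qk (η : ℝ) : Measurable (qk η) := by
  unfold qk
  exact Measurable.ite (measurableSet_lt measurable_id measurable_const) measurable_const
    measurable_const

lemma abs_qk {η : ℝ} (hη : 0 < η) (ρ : ℝ) : |qk η ρ| = 1 / η := by
  unfold qk
  have h : (0 : ℝ) < 1 / η := by positivity
  split_ifs
  · rw [abs_neg, abs_of_pos h]
  · rw [abs_of_pos h]

lemma Bd.mono {R R' : ℝ} (h : R ≤ R') {f : ℂ → ℂ} (hf : Bd R f) : Bd R' f :=
  ⟨hf.meas, hf.le_one, fun x hx => hf.supp x (lt_of_le_of_lt h hx)⟩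

lemma measurable_Hh (a₁ a₂ : ℂ) {f₀ f₂ : ℂ → ℂ} (h₀ : Measurable f₀) (h₂ : Measurable f₂) :
    Measurable (fun p : (ℝ × ℝ) × ℂ => Hh a₁ a₂ f₀ f₂ p.1 p.2) := by
  unfold Hh
  have hv : Measurable (fun p : (ℝ × ℝ) × ℂ => vv p.1) :=
    continuous_vv.measurable.comp measurable_fst
  have e1 : Measurable (fun p : (ℝ × ℝ) × ℂ => p.2 - a₁ * vv p.1) :=
    measurable_snd.sub (hv.const_mul a₁)
  have e2 : Measurable (fun p : (ℝ × ℝ) × ℂ => p.2 + (a₂ - a₁) * vv p.1) :=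
    measurable_snd.add (hv.const_mul (a₂ - a₁))
  exact (h₀.comp e1).mul (h₂.comp e2)

lemma norm_Hh_le (a₁ a₂ : ℂ) {f₀ f₂ : ℂ → ℂ} (h₀ : ∀ x, ‖f₀ x‖ ≤ 1) (h₂ : ∀ x, ‖f₂ x‖ ≤ 1)
    (z : ℝ × ℝ) (y : ℂ) : ‖Hh a₁ a₂ f₀ f₂ z y‖ ≤ 1 := by
  unfold Hh
  rw [norm_mul]
  exact mul_le_one₀ (h₀ _) (norm_nonneg _) (h₂ _)

lemma norm_qk {η : ℝ} (hη : 0 < η) (ρ : ℝ) : ‖(qk η ρ : ℂ)‖ = 1 / η := by
  rw [Complex.norm_real, Real.norm_eq_abs, abs_qk hη]

lemma muP_real {η : ℝ} (hη : 0 < η) : (muP η).real Set.univ = η * (2 * Real.pi) := by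
  have h2 : (0 : ℝ) ≤ 2 * Real.pi := by positivity
  rw [Measure.real, ← Set.univ_prod_univ, Measure.prod_prod]
  simp [ENNReal.toReal_ofReal hη.le, ENNReal.toReal_ofReal Real.pi_pos.le]

lemma D1_le (a₁ a₂ : ℂ) {η : ℝ} (hη : 0 < η) {f₀ f₂ : ℂ → ℂ} (h₀ : ∀ x, ‖f₀ x‖ ≤ 1)
    (h₂ : ∀ x, ‖f₂ x‖ ≤ 1) (y : ℂ) : ‖D1 a₁ a₂ η f₀ f₂ y‖ ≤ 2 * Real.pi := by
  unfold D1
  have h := norm_integral_le_of_norm_le_const (μ := muP η) (C := 1 / η)
    (f := fun z => (qk η z.1 : ℂ) * Hh a₁ a₂ f₀ f₂ z y) (Filter.Eventually.of_forall (fun z => by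
      rw [norm_mul, norm_qk hη]
      have := norm_Hh_le a₁ a₂ h₀ h₂ z y
      have hp : (0 : ℝ) < 1 / η := by positivity
      nlinarith))
  rw [muP_real hη] at h
  calc _ ≤ _ := h
    _ = 2 * Real.pi := by field_simp

lemma D1_measurable (a₁ a₂ : ℂ) (η : ℝ) {f₀ f₂ : ℂ → ℂ} (h₀ : Measurable f₀)
    (h₂ : Measurable f₂) : Measurable (D1 a₁ a₂ η f₀ f₂) := by
  unfold D1
  have h : Measurable (fun p : ℂ × (ℝ × ℝ) => (qk η p.2.1 : ℂ) * Hh a₁ a₂ f₀ f₂ p.2 p.1) := by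
    have h1 : Measurable (fun p : ℂ × (ℝ × ℝ) => (qk η p.2.1 : ℂ)) :=
      Complex.measurable_ofReal.comp
        ((measurable_qk η).comp (measurable_fst.comp measurable_snd))
    exact h1.mul ((measurable_Hh a₁ a₂ h₀ h₂).comp measurable_swap)
  exact (h.stronglyMeasurable.integral_prod_right (ν := muP η)).measurable

lemma D1_supp (a₁ a₂ : ℂ) {η R : ℝ} (hη1 : η ≤ 1 / 2) {f₀ f₂ : ℂ → ℂ}
    (h₀ : ∀ x, R < ‖x‖ → f₀ x = 0) (y : ℂ) (hy : R + 2 * ‖a₁‖ < ‖y‖) :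
    D1 a₁ a₂ η f₀ f₂ y = 0 := by
  unfold D1 muP
  rw [Measure.prod_restrict]
  refine setIntegral_eq_zero_of_forall_eq_zero (fun z hz => ?_)
  have hz1 : z.1 ≤ 1 := le_trans (le_trans hz.1.2 hη1) (by norm_num)
  have hz0 : 0 < z.1 := hz.1.1
  have e : ‖a₁ * vv z‖ ≤ 2 * ‖a₁‖ := by
    unfold vv
    rw [norm_mul, norm_mul, norm_cu, mul_one, Complex.norm_real, Real.norm_eq_abs,
      abs_of_pos (by linarith)]
    have := norm_nonneg a₁
    nlinarith
  have e2 : R < ‖y - a₁ * vv z‖ := by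
    have := norm_sub_norm_le y (a₁ * vv z)
    linarith
  unfold Hh
  rw [h₀ _ e2]
  ring

lemma integrable_bdd {g : ℂ → ℂ} {R C : ℝ} (hg : Measurable g) (hb : ∀ x, ‖g x‖ ≤ C)
    (hs : ∀ x, R < ‖x‖ → g x = 0) : Integrable g := by
  have hfin : Integrable (Set.indicator (Metric.closedBall (0 : ℂ) R) (fun _ => C)) := by
    rw [integrable_indicator_iff Metric.isClosed_closedBall.measurableSet]
    exact integrableOn_const (hs := (isCompact_closedBall (0 : ℂ) R).measure_lt_top.ne)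
  refine hfin.mono' hg.aestronglyMeasurable (Filter.Eventually.of_forall (fun x => ?_))
  by_cases hx : x ∈ Metric.closedBall (0 : ℂ) R
  · rw [Set.indicator_of_mem hx]; exact hb x
  · rw [Set.indicator_of_notMem hx, hs x (by simpa using hx), norm_zero]

theorem tq_eq (a₁ a₂ : ℂ) {η R R' : ℝ} (hη : 0 < η) {f₀ g f₂ : ℂ → ℂ} (h₀ : Bd R f₀)
    (hg : Bd R' g) (h₂ : Bd R f₂) :
    Tq a₁ a₂ η f₀ g f₂ = ∫ y, g y * D1 a₁ a₂ η f₀ f₂ y := by
  have hpi : (0 : ℝ) ≤ 2 * Real.pi := by positivity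
  -- the integrand
  set Φ : (ℝ × ℝ) → ℂ → ℂ := fun z y => (qk η z.1 : ℂ) * (g y * Hh a₁ a₂ f₀ f₂ z y) with hΦ
  have hmeas : Measurable (Function.uncurry Φ) := by
    have h1 : Measurable (fun p : (ℝ × ℝ) × ℂ => (qk η p.1.1 : ℂ)) :=
      Complex.measurable_ofReal.comp
        ((measurable_qk η).comp (measurable_fst.comp measurable_fst))
    exact h1.mul ((hg.meas.comp measurable_snd).mul (measurable_Hh a₁ a₂ h₀.meas h₂.meas))
  have hint : Integrable (Function.uncurry Φ) ((muP η).prod volume) := by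
    have hgi : Integrable g := integrable_bdd hg.meas hg.le_one hg.supp
    have hb : Integrable (fun p : (ℝ × ℝ) × ℂ => (1 / η) * ‖g p.2‖) ((muP η).prod volume) :=
      (hgi.norm.comp_snd (muP η)).const_mul (1 / η)
    refine hb.mono' hmeas.aestronglyMeasurable (Filter.Eventually.of_forall (fun p => ?_))
    show ‖(qk η p.1.1 : ℂ) * (g p.2 * Hh a₁ a₂ f₀ f₂ p.1 p.2)‖ ≤ _
    rw [norm_mul, norm_qk hη, norm_mul]
    have h1 := norm_Hh_le a₁ a₂ h₀.le_one h₂.le_one p.1 p.2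
    have h2 : (0 : ℝ) < 1 / η := by positivity
    have h3 := norm_nonneg (g p.2)
    have : ‖g p.2‖ * ‖Hh a₁ a₂ f₀ f₂ p.1 p.2‖ ≤ ‖g p.2‖ := mul_le_of_le_one_right h3 h1
    exact mul_le_mul_of_nonneg_left this h2.le
  have hswap := integral_integral_swap hint
  have hL : Tq a₁ a₂ η f₀ g f₂ = ∫ z, ∫ y, Φ z y ∂volume ∂(muP η) := by
    have hprod := integral_prod (fun z : ℝ × ℝ => ∫ y, Φ z y) hint.integral_prod_left
    rw [hprod]
    unfold Tq cform
    rw [intervalIntegral.integral_of_le hη.le]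
    refine integral_congr_ae (Filter.Eventually.of_forall (fun ρ => ?_))
    simp only
    rw [intervalIntegral.integral_of_le hpi, ← integral_const_mul]
    refine integral_congr_ae (Filter.Eventually.of_forall (fun φ => ?_))
    simp only [hΦ]
    rw [integral_const_mul]
    congr 1
    rw [← integral_sub_right_eq_self
      (fun x => f₀ x * g (x + a₁ * ((1 + ρ : ℝ) : ℂ) * cu φ) *
        f₂ (x + a₂ * ((1 + ρ : ℝ) : ℂ) * cu φ)) (a₁ * vv (ρ, φ))]
    refine integral_congr_ae (Filter.Eventually.of_forall (fun y => ?_))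
    simp only [Hh, vv]
    have e1 : y - a₁ * (((1 + ρ : ℝ) : ℂ) * cu φ) + a₁ * ((1 + ρ : ℝ) : ℂ) * cu φ = y := by ring
    have e2 : y - a₁ * (((1 + ρ : ℝ) : ℂ) * cu φ) + a₂ * ((1 + ρ : ℝ) : ℂ) * cu φ =
        y + (a₂ - a₁) * (((1 + ρ : ℝ) : ℂ) * cu φ) := by ring
    rw [e1, e2]
    ring
  rw [hL, hswap]
  refine integral_congr_ae (Filter.Eventually.of_forall (fun y => ?_))
  simp only [hΦ, D1]
  rw [← integral_const_mul]
  refine integral_congr_ae (Filter.Eventually.of_forall (fun z => ?_))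
  simp only
  ring

lemma Wt_neg (M s r : ℝ) : Wt M (-s) r = Wt M s r := by
  unfold Wt
  rw [abs_neg]

/-- The inner integral of the box form. -/
noncomputable def Jb (b c : ℂ) (g : ℂ → ℂ) (s r : ℝ) : ℂ :=
  ∫ x : ℂ, g x * conj (g (x + s * b)) * conj (g (x + r * c)) * g (x + s * b + r * c)

lemma Jb_conj (b c : ℂ) (g : ℂ → ℂ) (s r : ℝ) : conj (Jb b c g s r) = Jb b c g (-s) r := by
  unfold Jb
  rw [← integral_conj, ← integral_sub_right_eq_self _ ((s : ℂ) * b)]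
  refine integral_congr_ae (Filter.Eventually.of_forall (fun x => ?_))
  simp only [map_mul, Complex.conj_conj]
  have e1 : x - (s : ℂ) * b + (s : ℂ) * b = x := by ring
  have e2 : x + ((-s : ℝ) : ℂ) * b = x - (s : ℂ) * b := by push_cast; ring
  rw [e1, e2]
  ring

lemma boxf_im (b c : ℂ) (M : ℝ) (g : ℂ → ℂ) : (boxf b c M g).im = 0 := by
  rw [← Complex.conj_eq_iff_im]
  have e : ∀ s : ℝ, conj (∫ r : ℝ, (Wt M s r : ℂ) * Jb b c g s r) =
      ∫ r : ℝ, (Wt M (-s) r : ℂ) * Jb b c g (-s) r := by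
    intro s
    rw [← integral_conj]
    refine integral_congr_ae (Filter.Eventually.of_forall (fun r => ?_))
    simp only [map_mul, Complex.conj_ofReal, Jb_conj, Wt_neg]
  show conj (∫ s : ℝ, ∫ r : ℝ, (Wt M s r : ℂ) * Jb b c g s r) =
    ∫ s : ℝ, ∫ r : ℝ, (Wt M s r : ℂ) * Jb b c g s r
  rw [← integral_conj]
  simp_rw [e]
  exact integral_neg_eq_self (fun s : ℝ => ∫ r : ℝ, (Wt M s r : ℂ) * Jb b c g s r) volume

lemma measurable_cell (m : ℝ) : Measurable (cell m) := by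
  unfold cell
  exact ((Complex.measurable_re.div_const m).floor).prodMk
    ((Complex.measurable_im.div_const m).floor)

lemma measurable_pw (p : ℂ) (m : ℝ) (ξ a : ℤ × ℤ → ℂ) : Measurable (pw p m ξ a) := by
  unfold pw ip
  have hc : Measurable (fun x : ℂ => cell m (x - p)) :=
    (measurable_cell m).comp (measurable_id.sub_const p)
  have ha : Measurable (fun x : ℂ => a (cell m (x - p))) := (measurable_of_countable a).comp hc
  have hx : Measurable (fun x : ℂ => ξ (cell m (x - p))) := (measurable_of_countable ξ).comp hc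
  have hr : Measurable (fun x : ℂ => (ξ (cell m (x - p))).re * x.re +
      (ξ (cell m (x - p))).im * x.im) :=
    ((Complex.measurable_re.comp hx).mul Complex.measurable_re).add
      ((Complex.measurable_im.comp hx).mul Complex.measurable_im)
  exact ha.mul (Complex.measurable_exp.comp
    ((Complex.measurable_ofReal.comp hr).mul_const Complex.I))

lemma norm_pw_le (p : ℂ) (m : ℝ) {ξ a : ℤ × ℤ → ℂ} (ha : ∀ k, ‖a k‖ ≤ 1) (x : ℂ) :
    ‖pw p m ξ a x‖ ≤ 1 := by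
  unfold pw
  rw [norm_mul, Complex.norm_exp_ofReal_mul_I, mul_one]
  exact ha _

lemma bd_bind (R : ℝ) (p : ℂ) (m : ℝ) {ξ a : ℤ × ℤ → ℂ} (ha : ∀ k, ‖a k‖ ≤ 1) :
    Bd R (bind R (pw p m ξ a)) := by
  refine ⟨?_, ?_, ?_⟩
  · unfold bind
    exact Measurable.ite (measurableSet_le measurable_norm measurable_const)
      (measurable_pw p m ξ a) measurable_const
  · intro x
    unfold bind
    split_ifs
    · exact norm_pw_le p m ha x
    · simp
  · intro x hx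
    unfold bind
    rw [if_neg (not_le.mpr hx)]

lemma conj_pw (p : ℂ) (m : ℝ) (ξ a : ℤ × ℤ → ℂ) (x : ℂ) :
    conj (pw p m ξ a x) = pw p m (fun k => -ξ k) (fun k => conj (a k)) x := by
  unfold pw
  rw [map_mul, ← Complex.exp_conj]
  congr 2
  rw [map_mul, Complex.conj_ofReal, Complex.conj_I]
  have : ip (-ξ (cell m (x - p))) x = -ip (ξ (cell m (x - p))) x := by
    unfold ip
    simp only [Complex.neg_re, Complex.neg_im]
    ring
  rw [this]
  push_cast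
  ring

end RepAux

end Pool.Agent.H67.Pl
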