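import Pool.Agent.H74.Pl.RepAux

open MeasureTheory
open scoped ComplexConjugate

namespace Pool.Agent.H67.Pl

namespace RepAux

lemma volume_cb {R : ℝ} (hR : 0 ≤ R) :
    volume.real (Metric.closedBall (0 : ℂ) R) = Real.pi * R ^ 2 := by
  rw [Measure.real, Complex.volume_closedBall]
  simp [ENNReal.toReal_mul, ENNReal.toReal_ofReal hR]
  ring

/-- The energy of the dual function is large. -/
theorem energy (a₁ a₂ : ℂ) {R : ℝ} (hR : 1 ≤ R) {D η : ℝ} (hD : 2 ≤ D) (hη : 0 < η)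
    (hη1 : η ≤ 1 / 2) {f₀ f₁ f₂ : ℂ → ℂ} (h₀ : Bd R f₀) (h₁ : Bd R f₁) (h₂ : Bd R f₂)
    (hT : 1 / D ≤ ‖Tq a₁ a₂ η f₀ f₁ f₂‖) :
    1 / (Real.pi * R ^ 2 * D ^ 2) ≤ ∫ y, ‖D1 a₁ a₂ η f₀ f₂ y‖ ^ 2 := by
  set G := D1 a₁ a₂ η f₀ f₂ with hG
  have hGm : Measurable G := D1_measurable a₁ a₂ η h₀.meas h₂.meas
  have hGle : ∀ y, ‖G y‖ ≤ 2 * Real.pi := D1_le a₁ a₂ hη h₀.le_one h₂.le_one
  have hGs : ∀ y, R + 2 * ‖a₁‖ < ‖y‖ → G y = 0 := D1_supp a₁ a₂ hη1 h₀.supp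
  have hpi := Real.pi_pos
  have hpi3 := Real.pi_gt_three
  have hD0 : (0 : ℝ) < D := by linarith
  have hR0 : (0 : ℝ) < R := by linarith
  have hG2 : Integrable (fun y => ‖G y‖ ^ 2) := by
    have h := integrable_bdd (g := fun y => ((‖G y‖ ^ 2 : ℝ) : ℂ)) (R := R + 2 * ‖a₁‖)
      (C := (2 * Real.pi) ^ 2) (Complex.measurable_ofReal.comp (hGm.norm.pow_const 2))
      (fun x => by
        rw [Complex.norm_real, Real.norm_eq_abs, abs_of_nonneg (by positivity)]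
        exact pow_le_pow_left₀ (norm_nonneg _) (hGle x) 2)
      (fun x hx => by simp [hGs x hx])
    have h2 := h.re
    refine h2.congr (Filter.Eventually.of_forall fun y => ?_)
    exact Complex.ofReal_re _
  set t : ℝ := 1 / (D * (Real.pi * R ^ 2)) with ht
  have ht0 : 0 < t := by positivity
  have hpt : ∀ y, ‖f₁ y * G y‖ ≤ (Metric.closedBall (0 : ℂ) R).indicator (fun _ => t / 2) y +
      (1 / (2 * t)) * ‖G y‖ ^ 2 := by
    intro y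
    by_cases hy : y ∈ Metric.closedBall (0 : ℂ) R
    · rw [Set.indicator_of_mem hy, norm_mul]
      have h1 := h₁.le_one y
      have h2 := norm_nonneg (G y)
      have h3 : ‖f₁ y‖ * ‖G y‖ ≤ ‖G y‖ := mul_le_of_le_one_left h2 h1
      have h4 : ‖G y‖ ≤ t / 2 + 1 / (2 * t) * ‖G y‖ ^ 2 := by
        have e : t / 2 + 1 / (2 * t) * ‖G y‖ ^ 2 - ‖G y‖ = (t - ‖G y‖) ^ 2 / (2 * t) := by
          field_simp
          ring
        have : 0 ≤ (t - ‖G y‖) ^ 2 / (2 * t) := by positivity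
        linarith
      linarith
    · rw [Set.indicator_of_notMem hy, h₁.supp y (by simpa using hy), zero_mul, norm_zero, zero_add]
      positivity
  have hi1 : Integrable ((Metric.closedBall (0 : ℂ) R).indicator (fun _ => t / 2)) := by
    rw [integrable_indicator_iff Metric.isClosed_closedBall.measurableSet]
    exact integrableOn_const (hs := (isCompact_closedBall (0 : ℂ) R).measure_lt_top.ne)
  have hfG : Integrable (fun y => f₁ y * G y) := by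
    refine integrable_bdd (R := R) (C := 2 * Real.pi) (h₁.meas.mul hGm) (fun x => ?_)
      (fun x hx => by rw [h₁.supp x hx, zero_mul])
    rw [norm_mul]
    have := h₁.le_one x
    have h2 := hGle x
    have h3 := norm_nonneg (f₁ x)
    have h4 := norm_nonneg (G x)
    nlinarith
  have hle : ‖Tq a₁ a₂ η f₀ f₁ f₂‖ ≤ t / 2 * (Real.pi * R ^ 2) +
      1 / (2 * t) * ∫ y, ‖G y‖ ^ 2 := by
    rw [tq_eq a₁ a₂ hη h₀ h₁ h₂]
    calc ‖∫ y, f₁ y * G y‖ ≤ ∫ y, ‖f₁ y * G y‖ := norm_integral_le_integral_norm _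
      _ ≤ ∫ y, ((Metric.closedBall (0 : ℂ) R).indicator (fun _ => t / 2) y +
          (1 / (2 * t)) * ‖G y‖ ^ 2) :=
        integral_mono hfG.norm (hi1.add (hG2.const_mul _)) hpt
      _ = t / 2 * (Real.pi * R ^ 2) + 1 / (2 * t) * ∫ y, ‖G y‖ ^ 2 := by
        rw [integral_add hi1 (hG2.const_mul _), integral_const_mul,
          integral_indicator Metric.isClosed_closedBall.measurableSet, setIntegral_const,
          volume_cb hR0.le, smul_eq_mul]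
        ring
  have e1 : t / 2 * (Real.pi * R ^ 2) = 1 / (2 * D) := by
    rw [ht]
    field_simp
  have e2 : 1 / (2 * t) = D * (Real.pi * R ^ 2) / 2 := by
    rw [ht]
    field_simp
  rw [e1, e2] at hle
  have h5 : 1 / (2 * D) ≤ D * (Real.pi * R ^ 2) / 2 * ∫ y, ‖G y‖ ^ 2 := by
    have : 1 / D = 2 * (1 / (2 * D)) := by field_simp
    linarith
  rw [div_le_iff₀ (by positivity)]
  rw [div_le_iff₀ (by positivity)] at h5
  calc (1 : ℝ) ≤ D * (Real.pi * R ^ 2) / 2 * (∫ y, ‖G y‖ ^ 2) * (2 * D) := h5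
    _ = (∫ y, ‖G y‖ ^ 2) * (Real.pi * R ^ 2 * D ^ 2) := by ring

end RepAux

open RepAux in
theorem replace_one_of
    (hTB : ∀ (a₁ a₂ : ℂ) (R : ℝ), 0 < R → ∃ K : ℝ, 0 < K ∧
      ∀ (M η : ℝ) (f₀ f₁ f₂ : ℂ → ℂ), 0 < M → M ≤ 1 / 2 → 0 < η → η ≤ 1 / 2 →
        Bd R f₀ → Bd R f₁ → Bd R f₂ →
        ‖Tq a₁ a₂ η f₀ f₁ f₂‖ ^ 4 ≤ K * ((∫ φ in (0 : ℝ)..(2 * Real.pi),
          (boxf (a₁ * (Complex.I * cu φ)) ((a₁ - a₂) * (Complex.I * cu φ)) M f₁).re)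
            + (M ^ 2 / η) ^ 4))
    (hBL : ∀ (a₁ a₂ : ℂ), a₁ ≠ 0 → ∀ (R M : ℝ), 0 < M → ∀ (f : ℂ → ℂ), Bd R f →
      ∫ φ in (0 : ℝ)..(2 * Real.pi),
        boxf (a₁ * (Complex.I * cu φ)) ((a₁ - a₂) * (Complex.I * cu φ)) M f =
          2 * Lam ((a₁ - a₂) / a₁) (M * ‖a₁‖) f)
    (hLI : ∀ (σ : ℂ), σ.im ≠ 0 → σ.re ≠ 0 → ∀ (R : ℝ), 1 ≤ R →
      ∃ C C₁ : ℕ, ∀ (D m : ℝ) (f : ℂ → ℂ), 2 ≤ D → 0 < m → m ≤ 1 → Bd R f →
        1 / D ≤ ‖Lam σ m f‖ →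
        ∃ (p : ℂ) (ξ a : ℤ × ℤ → ℂ), (∀ k, ‖a k‖ ≤ 1) ∧
          1 / D ^ C ≤ ‖∫ x : ℂ, f x * pw p (m / D ^ C₁) ξ a x‖)
    (a₁ a₂ : ℂ) (ha : a₁ ≠ 0) (him : ((a₁ - a₂) / a₁).im ≠ 0)
    (hre : ((a₁ - a₂) / a₁).re ≠ 0) (R : ℝ) (hR : 1 ≤ R) :
    ∃ (C C₁ : ℕ) (R' : ℝ), R ≤ R' ∧ ∀ (D M η : ℝ) (f₀ f₁ f₂ : ℂ → ℂ), 2 ≤ D → 0 < M →
      M * ‖a₁‖ ≤ 1 → M ≤ 1 / 2 → 0 < η → η ≤ 1 / 2 → M ^ 2 / η ≤ 1 / D ^ C →
      Bd R f₀ → Bd R f₁ → Bd R f₂ → 1 / D ≤ ‖Tq a₁ a₂ η f₀ f₁ f₂‖ →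
      ∃ (p : ℂ) (ξ a : ℤ × ℤ → ℂ), (∀ k, ‖a k‖ ≤ 1) ∧
        1 / D ^ C ≤ ‖Tq a₁ a₂ η f₀ (bind R' (pw p (M * ‖a₁‖ / D ^ C₁) ξ a)) f₂‖ := by
  have hpi := Real.pi_pos
  have hpi3 := Real.pi_gt_three
  have ha0 : 0 < ‖a₁‖ := norm_pos_iff.mpr ha
  obtain ⟨K, hK, hTB'⟩ := hTB a₁ a₂ (R + 2 * ‖a₁‖) (by linarith)
  obtain ⟨C2, C1, hLI'⟩ := hLI ((a₁ - a₂) / a₁) him hre (R + 2 * ‖a₁‖) (by linarith)
  obtain ⟨n0, hn0⟩ := pow_unbounded_of_one_lt (2 * Real.pi ^ 2 * R ^ 2) (one_lt_two (α := ℝ))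
  obtain ⟨nK, hnK⟩ := pow_unbounded_of_one_lt K (one_lt_two (α := ℝ))
  set e1 : ℕ := 4 * (n0 + 2) + nK with he1
  set n : ℕ := e1 + 2 with hn
  refine ⟨e1 + 1 + n * C2, n * C1, R + 2 * ‖a₁‖, by linarith, ?_⟩
  intro D M η f₀ f₁ f₂ hD hM hMa hM2 hη hη1 hMη h₀ h₁ h₂ hT
  have hD0 : (0 : ℝ) < D := by linarith
  have hD1 : (1 : ℝ) ≤ D := by linarith
  set G := D1 a₁ a₂ η f₀ f₂ with hG
  have hGm : Measurable G := D1_measurable a₁ a₂ η h₀.meas h₂.meas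
  have hGle : ∀ y, ‖G y‖ ≤ 2 * Real.pi := D1_le a₁ a₂ hη h₀.le_one h₂.le_one
  have hGs : ∀ y, R + 2 * ‖a₁‖ < ‖y‖ → G y = 0 := D1_supp a₁ a₂ hη1 h₀.supp
  have hen := energy a₁ a₂ hR hD hη hη1 h₀ h₁ h₂ hT
  rw [← hG] at hen
  set I2 : ℝ := ∫ y, ‖G y‖ ^ 2 with hI2
  -- the test function
  set g : ℂ → ℂ := fun y => conj (G y) / ((2 * Real.pi : ℝ) : ℂ) with hg
  have hpc : ((2 * Real.pi : ℝ) : ℂ) ≠ 0 := by
    rw [Complex.ofReal_ne_zero]; positivity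
  have hgB : Bd (R + 2 * ‖a₁‖) g := by
    refine ⟨?_, fun x => ?_, fun x hx => ?_⟩
    · exact (Complex.continuous_conj.measurable.comp hGm).div_const _
    · rw [hg]
      simp only
      rw [norm_div, RCLike.norm_conj, Complex.norm_real, Real.norm_eq_abs,
        abs_of_pos (by positivity), div_le_one (by positivity)]
      exact hGle x
    · rw [hg]
      simp only
      rw [hGs x hx]
      simp
  have hTg : Tq a₁ a₂ η f₀ g f₂ = ((I2 / (2 * Real.pi) : ℝ) : ℂ) := by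
    rw [tq_eq a₁ a₂ hη h₀ hgB h₂, ← hG]
    have e : ∀ y, g y * G y = ((‖G y‖ ^ 2 / (2 * Real.pi) : ℝ) : ℂ) := by
      intro y
      rw [hg]
      simp only
      have h1 : conj (G y) * G y = ((‖G y‖ ^ 2 : ℝ) : ℂ) := by
        rw [Complex.conj_mul']
        push_cast
        ring
      rw [div_mul_eq_mul_div, h1, ← Complex.ofReal_div]
    simp_rw [e]
    rw [integral_complex_ofReal, integral_div]
  have hn1 : 1 / D ^ (n0 + 2) ≤ ‖Tq a₁ a₂ η f₀ g f₂‖ := by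
    have hI0 : 0 ≤ I2 := integral_nonneg (fun y => by positivity)
    rw [hTg, Complex.norm_real, Real.norm_eq_abs, abs_of_nonneg (by positivity)]
    have h1 : 1 / (Real.pi * R ^ 2 * D ^ 2) / (2 * Real.pi) ≤ I2 / (2 * Real.pi) :=
      div_le_div_of_nonneg_right hen (by positivity)
    have h2 : 1 / (Real.pi * R ^ 2 * D ^ 2) / (2 * Real.pi) =
        1 / (2 * Real.pi ^ 2 * R ^ 2 * D ^ 2) := by
      field_simp
    rw [h2] at h1
    refine le_trans ?_ h1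
    have hR0 : 0 < R := by linarith
    refine one_div_le_one_div_of_le (by positivity) ?_
    rw [pow_add]
    refine mul_le_mul_of_nonneg_right ?_ (by positivity)
    exact le_trans hn0.le (pow_le_pow_left₀ (by norm_num) hD n0)
  have hbox := hTB' M η f₀ g f₂ hM hM2 hη hη1 (Bd.mono (by linarith) h₀) hgB
    (Bd.mono (by linarith) h₂)
  set I : ℝ := ∫ φ in (0 : ℝ)..(2 * Real.pi),
      (boxf (a₁ * (Complex.I * cu φ)) ((a₁ - a₂) * (Complex.I * cu φ)) M g).re with hI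
  have hLam : (I : ℂ) = 2 * Lam ((a₁ - a₂) / a₁) (M * ‖a₁‖) g := by
    rw [← hBL a₁ a₂ ha (R + 2 * ‖a₁‖) M hM g hgB, hI, ← intervalIntegral.integral_ofReal]
    refine intervalIntegral.integral_congr (fun φ _ => ?_)
    apply Complex.ext
    · simp
    · rw [boxf_im]; simp
  -- the error
  have herr : (M ^ 2 / η) ^ 4 ≤ 1 / D ^ (e1 + 1) := by
    have h0 : 0 ≤ M ^ 2 / η := by positivity
    have hc : 1 / D ^ (e1 + 1 + n * C2) ≤ 1 / D ^ (e1 + 1) :=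
      one_div_le_one_div_of_le (by positivity) (pow_le_pow_right₀ hD1 (by omega))
    have hx : M ^ 2 / η ≤ 1 / D ^ (e1 + 1) := le_trans hMη hc
    have hx1 : M ^ 2 / η ≤ 1 := le_trans hx (by
      rw [div_le_one (by positivity)]
      exact one_le_pow₀ hD1)
    calc (M ^ 2 / η) ^ 4 ≤ (M ^ 2 / η) ^ 1 := pow_le_pow_of_le_one h0 hx1 (by norm_num)
      _ = M ^ 2 / η := pow_one _
      _ ≤ _ := hx
  have hKD : K ≤ D ^ nK := le_trans hnK.le (pow_le_pow_left₀ (by norm_num) hD nK)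
  have hIlow : 1 / D ^ e1 ≤ I + 1 / D ^ (e1 + 1) := by
    have h4 : (1 / D ^ (n0 + 2)) ^ 4 ≤ ‖Tq a₁ a₂ η f₀ g f₂‖ ^ 4 :=
      pow_le_pow_left₀ (by positivity) hn1 4
    have h5 : (1 / D ^ (n0 + 2)) ^ 4 ≤ K * (I + 1 / D ^ (e1 + 1)) :=
      le_trans h4 (le_trans hbox (mul_le_mul_of_nonneg_left (by linarith) hK.le))
    have hpos : 0 < I + 1 / D ^ (e1 + 1) := by
      by_contra hcon
      have : K * (I + 1 / D ^ (e1 + 1)) ≤ 0 :=
        mul_nonpos_of_nonneg_of_nonpos hK.le (not_lt.mp hcon)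
      have h6 : 0 < (1 / D ^ (n0 + 2)) ^ 4 := by positivity
      linarith
    have h6 : (1 / D ^ (n0 + 2)) ^ 4 ≤ D ^ nK * (I + 1 / D ^ (e1 + 1)) :=
      le_trans h5 (mul_le_mul_of_nonneg_right hKD hpos.le)
    have h7 : (1 / D ^ (n0 + 2)) ^ 4 = 1 / D ^ (4 * (n0 + 2)) := by
      rw [div_pow, one_pow, ← pow_mul, mul_comm (n0 + 2) 4]
    rw [h7] at h6
    rw [he1, pow_add, div_le_iff₀ (by positivity)]
    rw [div_le_iff₀ (by positivity)] at h6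
    calc (1 : ℝ) ≤ D ^ nK * (I + 1 / D ^ (e1 + 1)) * D ^ (4 * (n0 + 2)) := h6
      _ = _ := by rw [he1]; ring
  have hhalf : 1 / D ^ (e1 + 1) ≤ 1 / D ^ e1 / 2 := by
    rw [pow_succ, div_div]
    exact one_div_le_one_div_of_le (by positivity)
      (mul_le_mul_of_nonneg_left hD (by positivity))
  have hI3 : 1 / D ^ e1 / 2 ≤ I := by linarith
  have hLn : 1 / D ^ n ≤ ‖Lam ((a₁ - a₂) / a₁) (M * ‖a₁‖) g‖ := by
    have h8 : ‖(I : ℂ)‖ = 2 * ‖Lam ((a₁ - a₂) / a₁) (M * ‖a₁‖) g‖ := by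
      rw [hLam, norm_mul]
      norm_num
    rw [Complex.norm_real, Real.norm_eq_abs] at h8
    have h9 : I ≤ |I| := le_abs_self I
    have h10 : 1 / D ^ n ≤ 1 / D ^ e1 / 4 := by
      rw [hn, pow_add, div_div]
      exact one_div_le_one_div_of_le (by positivity)
        (mul_le_mul_of_nonneg_left (by nlinarith) (by positivity))
    linarith
  have hDn : (2 : ℝ) ≤ D ^ n := by
    calc (2 : ℝ) ≤ D := hD
      _ = D ^ 1 := (pow_one D).symm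
      _ ≤ D ^ n := pow_le_pow_right₀ hD1 (by omega)
  obtain ⟨p, ξ, a, haa, hcor⟩ := hLI' (D ^ n) (M * ‖a₁‖) g hDn (by positivity) hMa hgB hLn
  rw [← pow_mul, ← pow_mul] at hcor
  refine ⟨p, fun k => -ξ k, fun k => conj (a k), fun k => by rw [RCLike.norm_conj]; exact haa k,
    ?_⟩
  rw [tq_eq a₁ a₂ hη h₀ (bd_bind (R + 2 * ‖a₁‖) p _ (fun k => by
    rw [RCLike.norm_conj]; exact haa k)) h₂, ← hG]
  have e : ∀ y, bind (R + 2 * ‖a₁‖) (pw p (M * ‖a₁‖ / D ^ (n * C1)) (fun k => -ξ k)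
      (fun k => conj (a k))) y * G y =
        ((2 * Real.pi : ℝ) : ℂ) * conj (g y * pw p (M * ‖a₁‖ / D ^ (n * C1)) ξ a y) := by
    intro y
    have hb : bind (R + 2 * ‖a₁‖) (pw p (M * ‖a₁‖ / D ^ (n * C1)) (fun k => -ξ k)
      (fun k => conj (a k))) y * G y = pw p (M * ‖a₁‖ / D ^ (n * C1)) (fun k => -ξ k)
      (fun k => conj (a k)) y * G y := by
      unfold bind
      split_ifs with hy
      · rfl
      · rw [hGs y (not_le.mp hy)]; ring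
    rw [hb, map_mul, conj_pw]
    have hgc : conj (g y) = G y / ((2 * Real.pi : ℝ) : ℂ) := by
      rw [hg]
      simp only
      rw [map_div₀, Complex.conj_conj, Complex.conj_ofReal]
    rw [hgc]
    field_simp
  simp_rw [e]
  rw [integral_const_mul, integral_conj, norm_mul, RCLike.norm_conj, Complex.norm_real,
    Real.norm_eq_abs, abs_of_pos (by positivity : (0 : ℝ) < 2 * Real.pi)]
  have h11 : 1 / D ^ (e1 + 1 + n * C2) ≤ 1 / D ^ (n * C2) :=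
    one_div_le_one_div_of_le (by positivity) (pow_le_pow_right₀ hD1 (by omega))
  have h12 := norm_nonneg (∫ y, g y * pw p (M * ‖a₁‖ / D ^ (n * C1)) ξ a y)
  nlinarith

end Pool.Agent.H67.Pl
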